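import Pool.Agent.Y560.TH.Cst

/-!
Project TH: circular orders with a group action. The linear order with a least element attached to
a circular order, the universal cover, and its coding by structures with an action of a free group.
-/

set_option autoImplicit false

namespace Pool.Agent.H70TH

open Pool.Agent.H566P (XG Isom)
open Pool.Agent.Y560.TF (TO)
open Pool.Agent.Y560.TH

variable {Γ : Type}

/-- the linear order starting at `p` -/
def ltp (x : XC Γ) (p a b : ℕ) : Prop := a ≠ b ∧ (a = p ∨ x.1 p a b = true)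

section order

variable [Group Γ] {x : XC Γ}

theorem cdist (h : CO x) {a b c : ℕ} (h1 : x.1 a b c = true) : a ≠ b ∧ b ≠ c ∧ a ≠ c := by
  have key : ∀ a b, x.1 a b a ≠ true := fun a b h2 => by
    have h3 := h.asym _ _ _ h2
    rw [h2] at h3
    exact absurd h3 (by decide)
  refine ⟨?_, ?_, ?_⟩
  · rintro rfl
    exact key _ _ (h.cyc _ _ _ h1)
  · rintro rfl
    exact key _ _ (h.cyc _ _ _ (h.cyc _ _ _ h1))
  · rintro rfl
    exact key _ _ h1

theorem asym' (h : CO x) {a b c : ℕ} (h1 : x.1 a b c = true) (h2 : x.1 c b a = true) : False := by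
  have h3 := h.asym _ _ _ h1
  rw [h2] at h3
  exact absurd h3 (by decide)

theorem ltp_irr (p a : ℕ) : ¬ ltp x p a a := fun h => h.1 rfl

theorem ltp_min (h : CO x) (p a : ℕ) : ¬ ltp x p a p := by
  rintro ⟨h1, h2 | h2⟩
  · exact h1 h2
  · exact (cdist h h2).2.2 rfl

theorem ltp_tr (h : CO x) {p a b c : ℕ} (h1 : ltp x p a b) (h2 : ltp x p b c) : ltp x p a c := by
  obtain ⟨n1, h1⟩ := h1
  obtain ⟨n2, h2⟩ := h2
  rcases h1 with rfl | h1
  · rcases h2 with rfl | h2
    · exact absurd rfl n1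
    · exact ⟨(cdist h h2).2.2, Or.inl rfl⟩
  · rcases h2 with rfl | h2
    · exact absurd rfl (cdist h h1).2.2
    · have h3 := h.tr _ _ _ _ h1 h2
      exact ⟨(cdist h h3).2.1, Or.inr h3⟩

theorem ltp_tot (h : CO x) {p a b : ℕ} (hab : a ≠ b) : ltp x p a b ∨ ltp x p b a := by
  by_cases h1 : a = p
  · exact Or.inl ⟨hab, Or.inl h1⟩
  by_cases h2 : b = p
  · exact Or.inr ⟨hab.symm, Or.inl h2⟩
  rcases h.tot p a b (Ne.symm h1) hab (Ne.symm h2) with h3 | h3
  · exact Or.inl ⟨hab, Or.inr h3⟩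
  · exact Or.inr ⟨hab.symm, Or.inr (h.cyc _ _ _ (h.cyc _ _ _ h3))⟩

theorem ltp_asym (h : CO x) {p a b : ℕ} (h1 : ltp x p a b) (h2 : ltp x p b a) : False :=
  ltp_irr p a (ltp_tr h h1 h2)

theorem lin_cyc (h : CO x) {p a b c : ℕ} (h1 : ltp x p a b) (h2 : ltp x p b c) :
    x.1 a b c = true := by
  obtain ⟨n1, h1⟩ := h1
  obtain ⟨n2, h2⟩ := h2
  rcases h1 with rfl | h1
  · rcases h2 with rfl | h2
    · exact absurd rfl n1
    · exact h2
  · rcases h2 with rfl | h2
    · exact absurd rfl (cdist h h1).2.2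
    · have e1 : x.1 b c p = true := h.cyc _ _ _ h2
      have e2 : x.1 b p a = true := h.cyc _ _ _ (h.cyc _ _ _ h1)
      exact h.cyc _ _ _ (h.cyc _ _ _ (h.tr _ _ _ _ e1 e2))

/-- the circular order is the circular order of the linear order -/
theorem cyc_iff (h : CO x) (p a b c : ℕ) : x.1 a b c = true ↔
    (ltp x p a b ∧ ltp x p b c) ∨ (ltp x p b c ∧ ltp x p c a) ∨ (ltp x p c a ∧ ltp x p a b) := by
  constructor
  · intro h1
    obtain ⟨n1, n2, n3⟩ := cdist h h1
    rcases ltp_tot h (p := p) n1 with a1 | a1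
    · rcases ltp_tot h (p := p) n2 with a2 | a2
      · exact Or.inl ⟨a1, a2⟩
      · rcases ltp_tot h (p := p) n3 with a3 | a3
        · -- a < c < b
          have h2 := lin_cyc h a3 a2
          exact (asym' h h1 (h.cyc _ _ _ h2)).elim
        · exact Or.inr (Or.inr ⟨a3, a1⟩)
    · rcases ltp_tot h (p := p) n2 with a2 | a2
      · rcases ltp_tot h (p := p) n3 with a3 | a3
        · -- b < a < c
          have h2 := lin_cyc h a1 a3
          exact (asym' h h1 (h.cyc _ _ _ (h.cyc _ _ _ h2))).elim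
        · exact Or.inr (Or.inl ⟨a2, a3⟩)
      · -- c < b < a
        have h2 := lin_cyc h a2 a1
        exact (asym' h h1 h2).elim
  · rintro (⟨h1, h2⟩ | ⟨h1, h2⟩ | ⟨h1, h2⟩)
    · exact lin_cyc h h1 h2
    · exact h.cyc _ _ _ (h.cyc _ _ _ (lin_cyc h h1 h2))
    · exact h.cyc _ _ _ (lin_cyc h h1 h2)

end order

open Classical in
/-- the jump of the lift of `γ` -/
noncomputable def eps (x : XC Γ) (p : ℕ) (γ : Γ) (a : ℕ) : ℤ :=
  if ltp x p (x.2.1 γ a) (x.2.1 γ p) then 1 else 0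

theorem eps_mem (x : XC Γ) (p : ℕ) (γ : Γ) (a : ℕ) : eps x p γ a = 0 ∨ eps x p γ a = 1 := by
  unfold eps
  split_ifs
  · exact Or.inr rfl
  · exact Or.inl rfl

/-- the order of the universal cover -/
def lex (x : XC Γ) (p : ℕ) (u w : ℕ × ℤ) : Prop := u.2 < w.2 ∨ (u.2 = w.2 ∧ ltp x p u.1 w.1)

/-- the acting group -/
abbrev Dl (Γ : Type) : Type := FreeGroup (Option Γ)

/-- the deck transformation -/
def tg : Dl Γ := FreeGroup.of none

/-- the lift of `γ` -/
def sg (γ : Γ) : Dl Γ := FreeGroup.of (some γ)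

/-- `y` is the code of `x` with the named point `p`, via `f` -/
structure Cod (x : XC Γ) (p : ℕ) (f : ℕ × ℤ → ℕ) (y : XG (Dl Γ)) : Prop where
  bij : Function.Bijective f
  lt : ∀ u w, y.1 (f u) (f w) = true ↔ lex x p u w
  one : ∀ m, y.2.1 1 m = m
  mul : ∀ γ δ m, y.2.1 (γ * δ) m = y.2.1 γ (y.2.1 δ m)
  t : ∀ a n, y.2.1 tg (f (a, n)) = f (a, n + 1)
  s : ∀ γ a n, y.2.1 (sg γ) (f (a, n)) = f (x.2.1 γ a, n + eps x p γ a)
  p0 : ∀ a n, y.2.2 0 (f (a, n)) = true ↔ n = 0
  p1 : ∀ a n, y.2.2 1 (f (a, n)) = true ↔ n = 0 ∧ a = p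
  pi : ∀ i a n, y.2.2 (i + 2) (f (a, n)) = x.2.2 i a

/-- induction for actions -/
theorem act_ind {P : Dl Γ → Prop} (h1 : P 1) (ht : P tg) (hs : ∀ γ, P (sg γ))
    (hi : ∀ δ, P δ → P δ⁻¹) (hm : ∀ γ δ, P γ → P δ → P (γ * δ)) (δ : Dl Γ) : P δ := by
  have hg : ∀ o : Option Γ, P (FreeGroup.of o) := by
    rintro (_ | γ)
    · exact ht
    · exact hs γ
  induction δ using FreeGroup.induction_on with
  | C1 => exact h1
  | of o => exact hg o
  | inv_of o _ => exact hi _ (hg o)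
  | mul γ δ h1 h2 => exact hm _ _ h1 h2

theorem Cod.inv_l {x : XC Γ} {p : ℕ} {f : ℕ × ℤ → ℕ} {y : XG (Dl Γ)} (h : Cod x p f y)
    (δ : Dl Γ) (m : ℕ) : y.2.1 δ⁻¹ (y.2.1 δ m) = m := by
  rw [← h.mul, inv_mul_cancel, h.one]

theorem Cod.inv_r {x : XC Γ} {p : ℕ} {f : ℕ × ℤ → ℕ} {y : XG (Dl Γ)} (h : Cod x p f y)
    (δ : Dl Γ) (m : ℕ) : y.2.1 δ (y.2.1 δ⁻¹ m) = m := by
  rw [← h.mul, mul_inv_cancel, h.one]

/-- two codes of the same structure are isomorphic -/
theorem iso_of_cod {x : XC Γ} {p : ℕ} {f f' : ℕ × ℤ → ℕ} {y y' : XG (Dl Γ)} (h : Cod x p f y)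
    (h' : Cod x p f' y') : ∃ σ : Equiv.Perm ℕ, Isom σ y y' := by
  set F : ℕ × ℤ ≃ ℕ := Equiv.ofBijective f h.bij with hF
  set F' : ℕ × ℤ ≃ ℕ := Equiv.ofBijective f' h'.bij with hF'
  have hσ : ∀ u, (F.symm.trans F') (f u) = f' u := by
    intro u
    show F' (F.symm (F u)) = f' u
    rw [F.symm_apply_apply]
    rfl
  have hsur : ∀ m, ∃ u, f u = m := h.bij.2
  refine ⟨F.symm.trans F', fun m n => ?_, fun δ => ?_, fun i m => ?_⟩
  · obtain ⟨u, rfl⟩ := hsur m
    obtain ⟨w, rfl⟩ := hsur n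
    rw [hσ, hσ, Bool.eq_iff_iff, h'.lt, h.lt]
  · refine act_ind (P := fun δ => ∀ m, y'.2.1 δ ((F.symm.trans F') m) =
      (F.symm.trans F') (y.2.1 δ m)) (fun m => ?_) (fun m => ?_) (fun γ m => ?_)
      (fun δ hδ m => ?_) (fun γ δ h1 h2 m => ?_) δ
    · rw [h.one, h'.one]
    · obtain ⟨⟨a, n⟩, rfl⟩ := hsur m
      rw [hσ, h.t, hσ, h'.t]
    · obtain ⟨⟨a, n⟩, rfl⟩ := hsur m
      rw [hσ, h.s, hσ, h'.s]
    · have h3 := hδ (y.2.1 δ⁻¹ m)
      rw [h.inv_r] at h3
      rw [← h3, h'.inv_l]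
    · rw [h.mul, h'.mul, h2, h1]
  · obtain ⟨⟨a, n⟩, rfl⟩ := hsur m
    rw [hσ, Bool.eq_iff_iff]
    obtain _ | _ | i := i
    · rw [h'.p0, h.p0]
    · rw [h'.p1, h.p1]
    · rw [h'.pi, h.pi]

theorem Cod.trans {x : XC Γ} {p : ℕ} {f : ℕ × ℤ → ℕ} {y y' : XG (Dl Γ)} (h : Cod x p f y)
    {σ : Equiv.Perm ℕ} (hσ : Isom σ y y') : Cod x p (fun u => σ (f u)) y' := by
  obtain ⟨h1, h2, h3⟩ := hσ
  refine ⟨σ.bijective.comp h.bij, fun u w => ?_, fun m => ?_, fun γ δ m => ?_, fun a n => ?_,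
    fun γ a n => ?_, fun a n => ?_, fun a n => ?_, fun i a n => ?_⟩
  · rw [h1, h.lt]
  · have := h2 1 (σ.symm m)
    rw [h.one, σ.apply_symm_apply] at this
    exact this
  · obtain ⟨k, rfl⟩ := σ.surjective m
    rw [h2, h2, h2, h.mul]
  · rw [h2, h.t]
  · rw [h2, h.s]
  · rw [h3, h.p0]
  · rw [h3, h.p1]
  · rw [h3, h.pi]

theorem ltp_iso {x x' : XC Γ} {θ : Equiv.Perm ℕ} (h : IsoC θ x' x) (p a b : ℕ) :
    ltp x p (θ a) (θ b) ↔ ltp x' (θ.symm p) a b := by
  unfold ltp
  have h1 := h.1 (θ.symm p) a b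
  rw [θ.apply_symm_apply] at h1
  rw [h1, θ.injective.ne_iff, Equiv.eq_symm_apply]

open Classical in
theorem Cod.pull {x x' : XC Γ} {p : ℕ} {f : ℕ × ℤ → ℕ} {y : XG (Dl Γ)} (h : Cod x p f y)
    {θ : Equiv.Perm ℕ} (hθ : IsoC θ x' x) :
    Cod x' (θ.symm p) (fun u => f (θ u.1, u.2)) y := by
  have heps : ∀ γ a, eps x p γ (θ a) = eps x' (θ.symm p) γ a := by
    intro γ a
    have e1 := hθ.2.1 γ a
    have e2 := hθ.2.1 γ (θ.symm p)
    rw [θ.apply_symm_apply] at e2
    unfold eps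
    refine if_congr ?_ rfl rfl
    rw [e1, e2]
    exact ltp_iso hθ _ _ _
  refine ⟨?_, fun u w => ?_, h.one, h.mul, fun a n => ?_,
    fun γ a n => ?_, fun a n => ?_, fun a n => ?_, fun i a n => ?_⟩
  · have h1 : (fun u : ℕ × ℤ => f (θ u.1, u.2)) = f ∘ (θ.prodCongr (Equiv.refl ℤ)) := rfl
    rw [h1]
    exact h.bij.comp (Equiv.bijective _)
  · rw [h.lt]
    exact or_congr Iff.rfl (and_congr Iff.rfl (ltp_iso hθ _ _ _))
  · rw [h.t]
  · rw [h.s, hθ.2.1, heps]
  · rw [h.p0]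
  · rw [h.p1, Equiv.eq_symm_apply]
  · rw [h.pi, hθ.2.2]

section ord2

variable [Group Γ] {x : XC Γ}

theorem lex_tr (h : CO x) {p : ℕ} {u v w : ℕ × ℤ} (h1 : lex x p u v) (h2 : lex x p v w) :
    lex x p u w := by
  rcases h1 with h1 | ⟨h1, h1'⟩
  · rcases h2 with h2 | ⟨h2, -⟩
    · exact Or.inl (h1.trans h2)
    · exact Or.inl (h2 ▸ h1)
  · rcases h2 with h2 | ⟨h2, h2'⟩
    · exact Or.inl (h1 ▸ h2)
    · exact Or.inr ⟨h1.trans h2, ltp_tr h h1' h2'⟩

theorem lex_irr (p : ℕ) (u : ℕ × ℤ) : ¬ lex x p u u := by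
  rintro (h1 | ⟨-, h1⟩)
  · exact lt_irrefl _ h1
  · exact ltp_irr _ _ h1

theorem lex_tot (h : CO x) {p : ℕ} {u w : ℕ × ℤ} (hne : u ≠ w) : lex x p u w ∨ lex x p w u := by
  rcases lt_trichotomy u.2 w.2 with h1 | h1 | h1
  · exact Or.inl (Or.inl h1)
  · have h2 : u.1 ≠ w.1 := fun h2 => hne (Prod.ext h2 h1)
    rcases ltp_tot h (p := p) h2 with h3 | h3
    · exact Or.inl (Or.inr ⟨h1, h3⟩)
    · exact Or.inr (Or.inr ⟨h1.symm, h3⟩)
  · exact Or.inr (Or.inl h1)

theorem act_inj (h : CO x) (γ : Γ) : Function.Injective (x.2.1 γ) := by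
  intro a b hab
  have h1 := congrArg (x.2.1 γ⁻¹) hab
  rwa [← h.mul, ← h.mul, inv_mul_cancel, h.one, h.one] at h1

theorem lift_mono (h : CO x) {p : ℕ} (γ : Γ) {a b : ℕ} {n m : ℤ} (h1 : lex x p (a, n) (b, m)) :
    lex x p (x.2.1 γ a, n + eps x p γ a) (x.2.1 γ b, m + eps x p γ b) := by
  rcases h1 with h1 | ⟨h1, h2⟩
  · simp only at h1
    rcases eps_mem x p γ a with ea | ea
    · rcases eps_mem x p γ b with eb | eb
      · left
        simp only [ea, eb]
        omega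
      · left
        simp only [ea, eb]
        omega
    · rcases eps_mem x p γ b with eb | eb
      · rcases (show n + 1 < m ∨ n + 1 = m by omega) with h2 | h2
        · left
          simp only [ea, eb]
          omega
        · right
          refine ⟨by simp only [ea, eb]; omega, ?_⟩
          simp only
          have c1 : ltp x p (x.2.1 γ a) (x.2.1 γ p) := by
            by_contra hc
            unfold eps at ea
            rw [if_neg hc] at ea
            exact absurd ea (by decide)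
          have c2 : ¬ ltp x p (x.2.1 γ b) (x.2.1 γ p) := by
            intro hc
            unfold eps at eb
            rw [if_pos hc] at eb
            exact absurd eb (by decide)
          by_cases hbp : b = p
          · rw [hbp]
            exact c1
          · have h3 : x.2.1 γ b ≠ x.2.1 γ p := fun h4 => hbp (act_inj h γ h4)
            rcases ltp_tot h (p := p) h3 with h4 | h4
            · exact absurd h4 c2
            · exact ltp_tr h c1 h4
      · left
        simp only [ea, eb]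
        omega
  · simp only at h1 h2
    obtain ⟨n1, h2⟩ := h2
    have key : eps x p γ a < eps x p γ b ∨
        (eps x p γ a = eps x p γ b ∧ ltp x p (x.2.1 γ a) (x.2.1 γ b)) := by
      rcases h2 with rfl | h2
      · -- a = p
        have ea : eps x a γ a = 0 := by
          unfold eps
          rw [if_neg (ltp_irr _ _)]
        rw [ea]
        by_cases hb : ltp x a (x.2.1 γ b) (x.2.1 γ a)
        · left
          unfold eps
          rw [if_pos hb]
          decide
        · right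
          refine ⟨?_, ?_⟩
          · unfold eps
            rw [if_neg hb]
          · have h3 : x.2.1 γ a ≠ x.2.1 γ b := fun h4 => n1 (act_inj h γ h4)
            exact (ltp_tot h (p := a) h3).resolve_right hb
      · have h3 := (cyc_iff h p _ _ _).1 (h.mono γ _ _ _ h2)
        rcases h3 with ⟨h3, h4⟩ | ⟨h3, h4⟩ | ⟨h3, h4⟩
        · -- P < A < B
          right
          refine ⟨?_, h4⟩
          unfold eps
          rw [if_neg fun h5 => ltp_asym h h3 h5, if_neg fun h5 => ltp_asym h (ltp_tr h h3 h4) h5]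
        · -- A < B < P
          right
          refine ⟨?_, h3⟩
          unfold eps
          rw [if_pos (ltp_tr h h3 h4), if_pos h4]
        · -- B < P < A
          left
          unfold eps
          rw [if_neg fun h5 => ltp_asym h h4 h5, if_pos h3]
          decide
    rcases key with h3 | ⟨h3, h4⟩
    · left
      simp only
      omega
    · right
      refine ⟨by simp only; omega, h4⟩

/-- the codes are linear orders with an action -/
theorem cod_TO (h : CO x) {p : ℕ} {f : ℕ × ℤ → ℕ} {y : XG (Dl Γ)} (hc : Cod x p f y) : TO y := by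
  have hsur : ∀ m, ∃ u, f u = m := hc.bij.2
  have htot : ∀ m n, m ≠ n → y.1 m n = true ∨ y.1 n m = true := by
    intro m n hmn
    obtain ⟨u, rfl⟩ := hsur m
    obtain ⟨w, rfl⟩ := hsur n
    rw [hc.lt, hc.lt]
    exact lex_tot h fun h1 => hmn (by rw [h1])
  have hirr : ∀ m, y.1 m m ≠ true := by
    intro m h1
    obtain ⟨u, rfl⟩ := hsur m
    exact lex_irr _ _ ((hc.lt _ _).1 h1)
  have htr : ∀ m n k, y.1 m n = true → y.1 n k = true → y.1 m k = true := by
    intro m n k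
    obtain ⟨u, rfl⟩ := hsur m
    obtain ⟨v, rfl⟩ := hsur n
    obtain ⟨w, rfl⟩ := hsur k
    rw [hc.lt, hc.lt, hc.lt]
    exact fun h1 h2 => lex_tr h h1 h2
  refine ⟨fun m => Bool.eq_false_iff.2 (hirr m), htr, fun m n k _ _ => ?_, hc.one, hc.mul,
    fun γ => ?_⟩
  · by_cases hmn : m = n
    · exact Or.inl hmn
    · exact Or.inr (htot m n hmn)
  · refine act_ind (P := fun γ => ∀ m n, y.1 m n = true → y.1 (y.2.1 γ m) (y.2.1 γ n) = true)
      (fun m n => ?_) (fun m n => ?_) (fun γ m n => ?_) (fun δ hδ m n h1 => ?_)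
      (fun γ δ h1 h2 m n h3 => ?_) γ
    · rw [hc.one, hc.one]
      exact id
    · obtain ⟨⟨a, i⟩, rfl⟩ := hsur m
      obtain ⟨⟨b, j⟩, rfl⟩ := hsur n
      rw [hc.t, hc.t, hc.lt, hc.lt]
      rintro (h1 | ⟨h1, h2⟩)
      · left
        simp only at h1 ⊢
        omega
      · right
        simp only at h1 h2 ⊢
        exact ⟨by omega, h2⟩
    · obtain ⟨⟨a, i⟩, rfl⟩ := hsur m
      obtain ⟨⟨b, j⟩, rfl⟩ := hsur n
      rw [hc.s, hc.s, hc.lt, hc.lt]
      exact fun h1 => lift_mono h γ h1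
    · by_contra hcon
      have hne : y.2.1 δ⁻¹ n ≠ y.2.1 δ⁻¹ m := by
        intro h2
        have h3 := congrArg (y.2.1 δ) h2
        rw [hc.inv_r, hc.inv_r] at h3
        rw [h3] at h1
        exact hirr _ h1
      have h2 := hδ _ _ ((htot _ _ hne).resolve_right hcon)
      rw [hc.inv_r, hc.inv_r] at h2
      exact hirr _ (htr _ _ _ h1 h2)
    · rw [hc.mul, hc.mul]
      exact h1 _ _ (h2 _ _ h3)

/-- the deck transformation -/
def pT : Equiv.Perm (ℕ × ℤ) where
  toFun u := (u.1, u.2 + 1)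
  invFun u := (u.1, u.2 - 1)
  left_inv u := by simp
  right_inv u := by simp

/-- the lift of `γ` -/
noncomputable def pS (h : CO x) (p : ℕ) (γ : Γ) : Equiv.Perm (ℕ × ℤ) where
  toFun u := (x.2.1 γ u.1, u.2 + eps x p γ u.1)
  invFun u := (x.2.1 γ⁻¹ u.1, u.2 - eps x p γ (x.2.1 γ⁻¹ u.1))
  left_inv u := by
    have h1 : x.2.1 γ⁻¹ (x.2.1 γ u.1) = u.1 := by rw [← h.mul, inv_mul_cancel, h.one]
    simp only [h1, add_sub_cancel_right]
  right_inv u := by
    have h1 : x.2.1 γ (x.2.1 γ⁻¹ u.1) = u.1 := by rw [← h.mul, mul_inv_cancel, h.one]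
    simp only [h1, sub_add_cancel]

/-- the action of the free group on the universal cover -/
noncomputable def phi (h : CO x) (p : ℕ) : Dl Γ →* Equiv.Perm (ℕ × ℤ) :=
  FreeGroup.lift fun o => Option.elim o pT (pS h p)

open Classical in
/-- the code exists -/
theorem cod_ex (h : CO x) (p : ℕ) (e : ℕ × ℤ ≃ ℕ) : ∃ y : XG (Dl Γ), Cod x p e y := by
  refine ⟨(fun m n => decide (lex x p (e.symm m) (e.symm n)),
    fun δ m => e (phi h p δ (e.symm m)),
    fun i m => match i with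
      | 0 => decide ((e.symm m).2 = 0)
      | 1 => decide ((e.symm m).2 = 0 ∧ (e.symm m).1 = p)
      | i + 2 => x.2.2 i (e.symm m).1), ?_⟩
  refine ⟨e.bijective, fun u w => ?_, fun m => ?_, fun γ δ m => ?_, fun a n => ?_,
    fun γ a n => ?_, fun a n => ?_, fun a n => ?_, fun i a n => ?_⟩
  · simp only [e.symm_apply_apply, decide_eq_true_eq]
  · simp only [map_one, Equiv.Perm.one_apply, e.apply_symm_apply]
  · simp only [map_mul, Equiv.Perm.mul_apply, e.symm_apply_apply]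
  · simp only [e.symm_apply_apply]
    congr 1
  · simp only [e.symm_apply_apply]
    congr 1
  · simp only [e.symm_apply_apply, decide_eq_true_eq]
  · simp only [e.symm_apply_apply, decide_eq_true_eq]
  · simp only [e.symm_apply_apply]

end ord2

end Pool.Agent.H70TH
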