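import Pool.Agent.H70TH.Cod
import Pool.Agent.Y560.TG.PL

/-!
Project TH: circular orders with a group action. Decoding in a Borel way, and the theorem.
-/

set_option autoImplicit false

namespace Pool.Agent.H70TH

open Set MeasureTheory
open Pool.Agent.H566P (XG Isom)
open Pool.Agent.Y560.TF (TO)
open Pool.Agent.Y560.TH
open Pool.Agent.Y560.TG.PL (meas_nth)

variable {Γ : Type}

/-- the enumeration of the elements of level zero -/
noncomputable def en (y : XG (Dl Γ)) (a : ℕ) : ℕ := Nat.nth (fun m => y.2.2 0 m = true) a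

/-- the coordinates of the universal cover -/
noncomputable def nu (y : XG (Dl Γ)) (u : ℕ × ℤ) : ℕ := y.2.1 (tg ^ u.2) (en y u.1)

/-- `b` is the image of `a` under `γ` -/
def im1 (y : XG (Dl Γ)) (γ : Γ) (a b : ℕ) : Prop :=
  y.2.1 (sg γ) (nu y (a, 0)) = nu y (b, 0) ∨ y.2.1 (sg γ) (nu y (a, 0)) = nu y (b, 1)

/-- the order of the elements of level zero -/
def ol (y : XG (Dl Γ)) (a b : ℕ) : Prop := y.1 (nu y (a, 0)) (nu y (b, 0)) = true

/-- the circular order of the elements of level zero -/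
def cy (y : XG (Dl Γ)) (a b c : ℕ) : Prop :=
  (ol y a b ∧ ol y b c) ∨ (ol y b c ∧ ol y c a) ∨ (ol y c a ∧ ol y a b)

open Classical in
/-- the decoded structure -/
noncomputable def Dd (y : XG (Dl Γ)) : XC Γ :=
  (fun a b c => decide (cy y a b c), fun γ a => Nat.nth (im1 y γ a) 0,
    fun i a => y.2.2 (i + 2) (nu y (a, 0)))

theorem nth_single (p : ℕ → Prop) (k : ℕ) (h : ∀ b, p b ↔ b = k) : Nat.nth p 0 = k := by
  have h1 : p = fun b => b = k := funext fun b => propext (h b)
  rw [h1, Nat.nth_zero]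
  exact csInf_singleton k

theorem cod_zpow {x : XC Γ} {p : ℕ} {f : ℕ × ℤ → ℕ} {y : XG (Dl Γ)} (hc : Cod x p f y) (n : ℤ) :
    ∀ a m, y.2.1 (tg ^ n) (f (a, m)) = f (a, m + n) := by
  induction n using Int.induction_on with
  | zero =>
    intro a m
    rw [zpow_zero, hc.one, add_zero]
  | succ n ih =>
    intro a m
    rw [zpow_add_one, hc.mul, hc.t, ih]
    have e : m + 1 + (n : ℤ) = m + ((n : ℤ) + 1) := by ring
    rw [e]
  | pred n ih =>
    intro a m
    have e1 : y.2.1 tg⁻¹ (f (a, m)) = f (a, m - 1) := by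
      have h1 := hc.t a (m - 1)
      rw [sub_add_cancel] at h1
      rw [← h1, hc.inv_l]
    rw [zpow_sub_one, hc.mul, e1, ih]
    have e : m - 1 + -(n : ℤ) = m + (-(n : ℤ) - 1) := by ring
    rw [e]

/-- decoding -/
theorem cod_dec [Group Γ] {x : XC Γ} {p : ℕ} {f : ℕ × ℤ → ℕ} {y : XG (Dl Γ)} (h : CO x)
    (hc : Cod x p f y) :
    ∃ θ : Equiv.Perm ℕ, IsoC θ (Dd y) x ∧ Cod (Dd y) (θ.symm p) (nu y) y := by
  have finj : Function.Injective f := hc.bij.1
  have hinf : (Set.ofPred fun m => y.2.2 0 m = true).Infinite := by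
    refine Set.infinite_of_injective_forall_mem (f := fun a : ℕ => f (a, 0)) ?_ ?_
    · intro a b hab
      exact congrArg Prod.fst (finj hab)
    · intro a
      exact (hc.p0 a 0).2 rfl
  have hen : ∀ a, ∃ b, en y a = f (b, 0) := by
    intro a
    have h1 : y.2.2 0 (en y a) = true := Nat.nth_mem_of_infinite hinf a
    obtain ⟨⟨b, n⟩, hb⟩ := hc.bij.2 (en y a)
    rw [← hb] at h1
    have h2 := (hc.p0 b n).1 h1
    exact ⟨b, by rw [← hb, h2]⟩
  choose θ0 hθ0 using hen
  have hbij : Function.Bijective θ0 := by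
    constructor
    · intro a b hab
      apply Nat.nth_injective hinf
      show en y a = en y b
      rw [hθ0, hθ0, hab]
    · intro b
      have h1 : f (b, 0) ∈ Set.range (Nat.nth fun m => y.2.2 0 m = true) := by
        rw [Nat.range_nth_of_infinite hinf]
        exact (hc.p0 b 0).2 rfl
      obtain ⟨a, ha⟩ := h1
      refine ⟨a, ?_⟩
      have h2 : en y a = f (b, 0) := ha
      rw [hθ0] at h2
      exact congrArg Prod.fst (finj h2)
  set θ : Equiv.Perm ℕ := Equiv.ofBijective θ0 hbij with hθ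
  have hθe : ∀ a, θ a = θ0 a := fun _ => rfl
  have hnu : nu y = fun u => f (θ u.1, u.2) := by
    funext u
    unfold nu
    rw [hθ0, cod_zpow hc, zero_add]
    rfl
  have hnu' : ∀ a n, nu y (a, n) = f (θ a, n) := fun a n => by rw [hnu]
  have hol : ∀ a b, ol y a b ↔ ltp x p (θ a) (θ b) := by
    intro a b
    unfold ol
    rw [hnu', hnu', hc.lt]
    constructor
    · rintro (h1 | ⟨-, h1⟩)
      · exact absurd h1 (lt_irrefl _)
      · exact h1
    · exact fun h1 => Or.inr ⟨rfl, h1⟩
  have hiso : IsoC θ (Dd y) x := by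
    refine ⟨fun a b c => ?_, fun γ a => ?_, fun i a => ?_⟩
    · have h1 : cy y a b c ↔ (Dd y).1 a b c = true := (@decide_eq_true_iff _ (Classical.propDecidable _)).symm
      rw [Bool.eq_iff_iff, cyc_iff h p, ← h1]
      unfold cy
      rw [hol, hol, hol]
    · have h1 : ∀ b, im1 y γ a b ↔ b = θ.symm (x.2.1 γ (θ a)) := by
        intro b
        rw [Equiv.eq_symm_apply]
        unfold im1
        rw [hnu', hnu', hnu', hc.s, finj.eq_iff, finj.eq_iff, Prod.mk.injEq, Prod.mk.injEq,
          zero_add]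
        constructor
        · rintro (⟨h1, -⟩ | ⟨h1, -⟩)
          · exact h1.symm
          · exact h1.symm
        · intro h1
          rcases eps_mem x p γ (θ a) with h2 | h2
          · exact Or.inl ⟨h1.symm, h2⟩
          · exact Or.inr ⟨h1.symm, h2⟩
      have h2 : (Dd y).2.1 γ a = θ.symm (x.2.1 γ (θ a)) := nth_single _ _ h1
      rw [h2, θ.apply_symm_apply]
    · show x.2.2 i (θ a) = y.2.2 (i + 2) (nu y (a, 0))
      rw [hnu', hc.pi]
  refine ⟨θ, hiso, ?_⟩
  have h1 := hc.pull hiso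
  rw [hnu]
  exact h1

/-! ### Measurability -/

theorem k_1 (a b c : ℕ) : Measurable fun x : XC Γ => x.1 a b c = true := by
  have h : Measurable fun x : XC Γ => x.1 a b c :=
    (measurable_pi_apply c).comp ((measurable_pi_apply b).comp
      ((measurable_pi_apply a).comp measurable_fst))
  exact measurableSet_setOfPred.1 (h (measurableSet_singleton true))

theorem k_2 (γ : Γ) (m n : ℕ) : Measurable fun x : XC Γ => x.2.1 γ m = n := by
  have h : Measurable fun x : XC Γ => x.2.1 γ m :=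
    (measurable_pi_apply m).comp ((measurable_pi_apply γ).comp
      (measurable_fst.comp measurable_snd))
  exact measurableSet_setOfPred.1 (h (measurableSet_singleton n))

theorem k_3 (i m : ℕ) : Measurable fun x : XC Γ => x.2.2 i m = true := by
  have h : Measurable fun x : XC Γ => x.2.2 i m :=
    (measurable_pi_apply m).comp ((measurable_pi_apply i).comp
      (measurable_snd.comp measurable_snd))
  exact measurableSet_setOfPred.1 (h (measurableSet_singleton true))

theorem q_en (a m : ℕ) : Measurable fun y : XG (Dl Γ) => en y a = m :=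
  meas_nth (fun (y : XG (Dl Γ)) m => y.2.2 0 m = true) (fun m => m_3 0 m) a m

theorem q_nu (u : ℕ × ℤ) (m : ℕ) : Measurable fun y : XG (Dl Γ) => nu y u = m := by
  have h1 : (fun y : XG (Dl Γ) => nu y u = m) =
      fun y => ∃ k, en y u.1 = k ∧ y.2.1 (tg ^ u.2) k = m := by
    funext y
    apply propext
    constructor
    · exact fun h => ⟨_, rfl, h⟩
    · rintro ⟨k, rfl, h⟩
      exact h
  rw [h1]
  exact Measurable.exists fun k => (q_en _ k).and (m_2 _ k m)

theorem q_app (δ : Dl Γ) (u w : ℕ × ℤ) :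
    Measurable fun y : XG (Dl Γ) => y.2.1 δ (nu y u) = nu y w := by
  have h1 : (fun y : XG (Dl Γ) => y.2.1 δ (nu y u) = nu y w) =
      fun y => ∃ i j, nu y u = i ∧ y.2.1 δ i = j ∧ nu y w = j := by
    funext y
    apply propext
    constructor
    · exact fun h => ⟨_, _, rfl, h, rfl⟩
    · rintro ⟨i, j, rfl, h2, h3⟩
      rw [h2, h3]
  rw [h1]
  exact Measurable.exists fun i => Measurable.exists fun j =>
    (q_nu u i).and ((m_2 δ i j).and (q_nu w j))

theorem q_im (γ : Γ) (a b : ℕ) : Measurable fun y : XG (Dl Γ) => im1 y γ a b :=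
  (q_app _ _ _).or (q_app _ _ _)

theorem q_lt (u w : ℕ × ℤ) : Measurable fun y : XG (Dl Γ) => y.1 (nu y u) (nu y w) = true := by
  have h1 : (fun y : XG (Dl Γ) => y.1 (nu y u) (nu y w) = true) =
      fun y => ∃ i j, nu y u = i ∧ nu y w = j ∧ y.1 i j = true := by
    funext y
    apply propext
    constructor
    · exact fun h => ⟨_, _, rfl, rfl, h⟩
    · rintro ⟨i, j, rfl, rfl, h⟩
      exact h
  rw [h1]
  exact Measurable.exists fun i => Measurable.exists fun j =>
    (q_nu u i).and ((q_nu w j).and (m_1 i j))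

theorem q_pr (i : ℕ) (u : ℕ × ℤ) : Measurable fun y : XG (Dl Γ) => y.2.2 i (nu y u) = true := by
  have h1 : (fun y : XG (Dl Γ) => y.2.2 i (nu y u) = true) =
      fun y => ∃ k, nu y u = k ∧ y.2.2 i k = true := by
    funext y
    apply propext
    constructor
    · exact fun h => ⟨_, rfl, h⟩
    · rintro ⟨k, rfl, h⟩
      exact h
  rw [h1]
  exact Measurable.exists fun k => (q_nu u k).and (m_3 i k)

theorem meas_Dd : Measurable (Dd : XG (Dl Γ) → XC Γ) := by
  refine Measurable.prodMk ?_ (Measurable.prodMk ?_ ?_)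
  · refine measurable_pi_lambda _ fun a => measurable_pi_lambda _ fun b =>
      measurable_pi_lambda _ fun c => m_dec ?_
    exact ((q_lt _ _).and (q_lt _ _)).or (((q_lt _ _).and (q_lt _ _)).or
      ((q_lt _ _).and (q_lt _ _)))
  · refine measurable_pi_lambda _ fun γ => measurable_pi_lambda _ fun a =>
      measurable_to_countable' fun k => ?_
    exact measurableSet_setOfPred.2 (meas_nth (fun (y : XG (Dl Γ)) b => im1 y γ a b)
      (fun b => q_im γ a b) 0 k)
  · refine measurable_pi_lambda _ fun i => measurable_pi_lambda _ fun a =>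
      measurable_to_bool ?_
    exact measurableSet_setOfPred.2 (q_pr (i + 2) (a, 0))

theorem q_ltp (p a b : ℕ) : Measurable fun y : XG (Dl Γ) => ltp (Dd y) p a b :=
  measurable_const.and (measurable_const.or ((k_1 p a b).comp meas_Dd))

/-- the coding relation is Borel -/
theorem q_cod [Countable Γ] (p : ℕ) :
    Measurable fun y : XG (Dl Γ) => Cod (Dd y) p (nu y) y := by
  classical
  have h1 : (fun y : XG (Dl Γ) => Cod (Dd y) p (nu y) y) = fun y =>
      (∀ u w, ∀ m, (nu y u = m ∧ nu y w = m) → u = w) ∧ (∀ m, ∃ u, nu y u = m) ∧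
      (∀ u w, y.1 (nu y u) (nu y w) = true ↔ (u.2 < w.2 ∨ (u.2 = w.2 ∧ ltp (Dd y) p u.1 w.1))) ∧
      (∀ m, y.2.1 1 m = m) ∧
      (∀ γ δ m i j, y.2.1 δ m = i → y.2.1 γ i = j → y.2.1 (γ * δ) m = j) ∧
      (∀ a n, y.2.1 tg (nu y (a, n)) = nu y (a, n + 1)) ∧
      (∀ γ a n b c, (Dd y).2.1 γ a = b → (Dd y).2.1 γ p = c →
        (ltp (Dd y) p b c → y.2.1 (sg γ) (nu y (a, n)) = nu y (b, n + 1)) ∧
        (¬ ltp (Dd y) p b c → y.2.1 (sg γ) (nu y (a, n)) = nu y (b, n + 0))) ∧
      (∀ a n, y.2.2 0 (nu y (a, n)) = true ↔ n = 0) ∧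
      (∀ a n, y.2.2 1 (nu y (a, n)) = true ↔ (n = 0 ∧ a = p)) ∧
      (∀ i a n, y.2.2 (i + 2) (nu y (a, n)) = true ↔ (Dd y).2.2 i a = true) := by
    funext y
    apply propext
    constructor
    · intro h
      refine ⟨?_, h.bij.2, h.lt, h.one, ?_, h.t, ?_, h.p0, h.p1, ?_⟩
      · rintro u w m ⟨h2, h3⟩
        exact h.bij.1 (h2.trans h3.symm)
      · rintro γ δ m i j rfl rfl
        exact h.mul γ δ m
      · rintro γ a n b c rfl rfl
        refine ⟨fun h2 => ?_, fun h2 => ?_⟩
        · have h3 := h.s γ a n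
          unfold eps at h3
          rwa [if_pos h2] at h3
        · have h3 := h.s γ a n
          unfold eps at h3
          rwa [if_neg h2] at h3
      · intro i a n
        rw [h.pi]
    · rintro ⟨h1, h2, h3, h4, h5, h6, h7, h8, h9, h10⟩
      refine ⟨⟨fun u w huw => h1 u w _ ⟨rfl, huw.symm⟩, h2⟩, h3, h4,
        fun γ δ m => h5 γ δ m _ _ rfl rfl, h6, fun γ a n => ?_, h8, h9, fun i a n => ?_⟩
      · unfold eps
        split_ifs with h11
        · exact (h7 γ a n _ _ rfl rfl).1 h11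
        · exact (h7 γ a n _ _ rfl rfl).2 h11
      · rw [Bool.eq_iff_iff]
        exact h10 i a n
  rw [h1]
  refine (Measurable.forall fun u => Measurable.forall fun w => Measurable.forall fun m =>
    ((q_nu u m).and (q_nu w m)).imp measurable_const).and ?_
  refine (Measurable.forall fun m => Measurable.exists fun u => q_nu u m).and ?_
  refine (Measurable.forall fun u => Measurable.forall fun w => (q_lt u w).iff
    (measurable_const.or (measurable_const.and (q_ltp _ _ _)))).and ?_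
  refine (Measurable.forall fun m => m_2 1 m m).and ?_
  refine (Measurable.forall fun γ => Measurable.forall fun δ => Measurable.forall fun m =>
    Measurable.forall fun i => Measurable.forall fun j => (m_2 δ m i).imp ((m_2 γ i j).imp
      (m_2 (γ * δ) m j))).and ?_
  refine (Measurable.forall fun a => Measurable.forall fun n => q_app _ _ _).and ?_
  refine (Measurable.forall fun γ => Measurable.forall fun a => Measurable.forall fun n =>
    Measurable.forall fun b => Measurable.forall fun c => ((k_2 γ a b).comp meas_Dd).imp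
      (((k_2 γ p c).comp meas_Dd).imp (((q_ltp p b c).imp (q_app _ _ _)).and
        ((q_ltp p b c).not.imp (q_app _ _ _))))).and ?_
  refine (Measurable.forall fun a => Measurable.forall fun n =>
    (q_pr _ _).iff measurable_const).and ?_
  refine (Measurable.forall fun a => Measurable.forall fun n =>
    (q_pr _ _).iff measurable_const).and ?_
  exact Measurable.forall fun i => Measurable.forall fun a => Measurable.forall fun n =>
    (q_pr _ _).iff ((k_3 i a).comp meas_Dd)

/-! ### Isomorphism of structures with a ternary relation -/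

theorem isoC_symm {σ : Equiv.Perm ℕ} {x y : XC Γ} (h : IsoC σ x y) : IsoC σ.symm y x := by
  obtain ⟨h1, h2, h3⟩ := h
  refine ⟨fun a b c => ?_, fun γ m => ?_, fun i m => ?_⟩
  · rw [← h1, σ.apply_symm_apply, σ.apply_symm_apply, σ.apply_symm_apply]
  · have := h2 γ (σ.symm m)
    rw [σ.apply_symm_apply] at this
    rw [this, σ.symm_apply_apply]
  · rw [← h3, σ.apply_symm_apply]

theorem isoC_trans {σ τ : Equiv.Perm ℕ} {x y z : XC Γ} (h : IsoC σ x y) (h' : IsoC τ y z) :
    IsoC (σ.trans τ) x z :=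
  ⟨fun a b c => (h'.1 _ _ _).trans (h.1 a b c), fun γ m => by
    show z.2.1 γ (τ (σ m)) = τ (σ (x.2.1 γ m))
    rw [h'.2.1, h.2.1], fun i m => (h'.2.2 i _).trans (h.2.2 i m)⟩

theorem bsC [Countable Γ] : BorelSpace (XC Γ) := by
  have h0 : BorelSpace (ℕ → ℕ → Bool) := inferInstance
  have s0 : SecondCountableTopology (ℕ → ℕ → Bool) := inferInstance
  have h1 : BorelSpace (ℕ → ℕ → ℕ → Bool) := Pi.borelSpace
  have h2 : BorelSpace (Γ → ℕ → ℕ) := inferInstance
  have h3 : BorelSpace ((Γ → ℕ → ℕ) × (ℕ → ℕ → Bool)) := Prod.borelSpace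
  exact Prod.borelSpace

/-- isomorphism of a Borel family of structures is analytic -/
theorem analytic_isoC [Countable Γ] (u : (ℕ → Bool) → XC Γ) (hu : Measurable u) :
    AnalyticSet {p : (ℕ → Bool) × (ℕ → Bool) | ∃ σ : Equiv.Perm ℕ, IsoC σ (u p.1) (u p.2)} := by
  set Ω : Type := ((ℕ → Bool) × (ℕ → Bool)) × ((ℕ → ℕ) × (ℕ → ℕ)) with hΩ
  have m1 : ∀ a b : ℕ, Measurable fun q : Ω => q.2.1 a = b := fun a b => by
    have h : Measurable fun q : Ω => q.2.1 a :=
      (measurable_pi_apply a).comp (measurable_fst.comp measurable_snd)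
    exact measurableSet_setOfPred.1 (h (measurableSet_singleton b))
  have m2 : ∀ a b : ℕ, Measurable fun q : Ω => q.2.2 a = b := fun a b => by
    have h : Measurable fun q : Ω => q.2.2 a :=
      (measurable_pi_apply a).comp (measurable_snd.comp measurable_snd)
    exact measurableSet_setOfPred.1 (h (measurableSet_singleton b))
  have mu : Measurable fun q : Ω => u q.1.1 := hu.comp (measurable_fst.comp measurable_fst)
  have mv : Measurable fun q : Ω => u q.1.2 := hu.comp (measurable_snd.comp measurable_fst)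
  let P : Ω → Prop := fun q => (∀ a b, q.2.1 a = b → q.2.2 b = a) ∧
    (∀ a b, q.2.2 a = b → q.2.1 b = a) ∧
    (∀ a b e c d g, q.2.1 a = c → q.2.1 b = d → q.2.1 e = g →
      ((u q.1.2).1 c d g = true ↔ (u q.1.1).1 a b e = true)) ∧
    (∀ (γ : Γ) (a b c d : ℕ), q.2.1 a = c → q.2.1 b = d → (u q.1.1).2.1 γ a = b →
      (u q.1.2).2.1 γ c = d) ∧
    ∀ i a c, q.2.1 a = c → ((u q.1.2).2.2 i c = true ↔ (u q.1.1).2.2 i a = true)
  have hP : Measurable P := by
    refine (Measurable.forall fun a => Measurable.forall fun b => (m1 a b).imp (m2 b a)).and ?_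
    refine (Measurable.forall fun a => Measurable.forall fun b => (m2 a b).imp (m1 b a)).and ?_
    refine (Measurable.forall fun a => Measurable.forall fun b => Measurable.forall fun e =>
      Measurable.forall fun c => Measurable.forall fun d => Measurable.forall fun g =>
        (m1 a c).imp ((m1 b d).imp ((m1 e g).imp (Measurable.iff ?_ ?_)))).and ?_
    · exact (k_1 c d g).comp mv
    · exact (k_1 a b e).comp mu
    refine (Measurable.forall fun γ => Measurable.forall fun a => Measurable.forall fun b =>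
      Measurable.forall fun c => Measurable.forall fun d => (m1 a c).imp ((m1 b d).imp
        (Measurable.imp ?_ ?_))).and ?_
    · exact (k_2 γ a b).comp mu
    · exact (k_2 γ c d).comp mv
    refine Measurable.forall fun i => Measurable.forall fun a => Measurable.forall fun c =>
      (m1 a c).imp (Measurable.iff ?_ ?_)
    · exact (k_3 i c).comp mv
    · exact (k_3 i a).comp mu
  have h2 : {p : (ℕ → Bool) × (ℕ → Bool) | ∃ σ : Equiv.Perm ℕ, IsoC σ (u p.1) (u p.2)} =
      Prod.fst '' {q : Ω | P q} := by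
    ext p
    constructor
    · rintro ⟨σ, hσ⟩
      refine ⟨(p, (⇑σ, ⇑σ.symm)), ⟨?_, ?_, ?_, ?_, ?_⟩, rfl⟩
      · rintro a b rfl
        exact σ.symm_apply_apply a
      · rintro a b rfl
        exact σ.apply_symm_apply a
      · rintro a b e c d g rfl rfl rfl
        exact Bool.eq_iff_iff.1 (hσ.1 a b e)
      · rintro γ a b c d rfl rfl h
        show (u p.2).2.1 γ (σ a) = σ b
        rw [hσ.2.1, h]
      · rintro i a c rfl
        exact Bool.eq_iff_iff.1 (hσ.2.2 i a)
    · rintro ⟨q, ⟨h1, h2, h3, h4, h5⟩, rfl⟩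
      refine ⟨⟨q.2.1, q.2.2, fun a => h1 a _ rfl, fun a => h2 a _ rfl⟩, ?_, ?_, ?_⟩
      · exact fun a b c => Bool.eq_iff_iff.2 (h3 a b c _ _ _ rfl rfl rfl)
      · exact fun γ m => h4 γ m _ _ _ rfl rfl rfl
      · exact fun i m => Bool.eq_iff_iff.2 (h5 i m _ rfl)
  rw [h2]
  exact (measurableSet_setOfPred.2 hP).analyticSet_image measurable_fst

/-! ### The theorem -/

theorem t_CIRC (h : S_OUTT) : S_CIRC := by
  intro Γ _ _ B hB hCO hinv
  have b1 : BorelSpace (XC Γ) := bsC
  have b2 : BorelSpace (XG (Dl Γ)) := bsG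
  set A : Set (XG (Dl Γ)) := {y | Dd y ∈ B ∧ ∃ p, Cod (Dd y) p (nu y) y} with hA
  have key : ∀ {x : XC Γ} {p : ℕ} {f : ℕ × ℤ → ℕ} {y : XG (Dl Γ)}, x ∈ B → Cod x p f y →
      y ∈ A ∧ ∃ θ : Equiv.Perm ℕ, IsoC θ (Dd y) x := by
    intro x p f y hx hc
    obtain ⟨θ, h1, h2⟩ := cod_dec (hCO x hx) hc
    exact ⟨⟨hinv x hx _ _ (isoC_symm h1), _, h2⟩, θ, h1⟩
  have hAm : MeasurableSet A := by
    refine (meas_Dd hB).inter ?_
    exact measurableSet_setOfPred.2 (Measurable.exists fun p => q_cod p)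
  have hAT : ∀ y ∈ A, TO y := by
    rintro y ⟨h1, p, h2⟩
    exact cod_TO (hCO _ h1) h2
  have hAi : ∀ y ∈ A, ∀ (y' : XG (Dl Γ)) (σ : Equiv.Perm ℕ), Isom σ y y' → y' ∈ A := by
    rintro y ⟨h1, p, h2⟩ y' σ hσ
    exact (key h1 (h2.trans hσ)).1
  set e : ℕ × ℤ ≃ ℕ := Denumerable.eqv (ℕ × ℤ) with he
  refine transfer (EX := fun x y => ∃ σ : Equiv.Perm ℕ, Isom σ x y)
    (EY := fun x y => ∃ σ : Equiv.Perm ℕ, IsoC σ x y) ?_ ?_ ?_ Dd meas_Dd A B ?_ ?_ ?_ ?_ ?_
    (h (Dl Γ) A hAm hAT hAi)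
  · rintro x y ⟨σ, hσ⟩
    exact ⟨_, iso_symm hσ⟩
  · rintro x y z ⟨σ, hσ⟩ ⟨τ, hτ⟩
    exact ⟨_, iso_trans hσ hτ⟩
  · rintro x y z ⟨σ, hσ⟩ ⟨τ, hτ⟩
    exact ⟨_, isoC_trans hσ hτ⟩
  · exact fun y hy => hy.1
  · intro x hx
    obtain ⟨y, hy⟩ := cod_ex (hCO x hx) 0 e
    obtain ⟨h1, h2⟩ := key hx hy
    exact ⟨y, h1, h2⟩
  · rintro y y' ⟨h1, p, h2⟩ ⟨σ, hσ⟩
    exact (key h1 (h2.trans (iso_symm hσ))).2
  · rintro y ⟨h1, p, h2⟩
    have hex : ∀ p : ℕ, ∃ c : XG (Dl Γ), Cod (Dd y) p e c := fun p => cod_ex (hCO _ h1) p e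
    choose c hc using hex
    refine ⟨Set.range c, Set.countable_range c, ?_⟩
    rintro y' ⟨h3, p', h4⟩ ⟨σ, hσ⟩
    exact ⟨c (σ.symm p'), Set.mem_range_self _, iso_of_cod (hc _) (h4.pull hσ)⟩
  · exact fun u hu => analytic_isoC u hu

end Pool.Agent.H70TH
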